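import Mathlib

namespace Pool.Agent.Lib.MP_71d90a_co

/-- A cycle over the alphabet `Fin n` is given by a finite word `c`, read cyclically; its rotations
are the words `c.rotate j` with `j < c.length`. It is universal if every permutation of the
alphabet, written out as a word of length `n`, is a (not necessarily contiguous) subsequence of at
least one rotation of `c`. -/
def IsUniversal {n : ℕ} (c : List (Fin n)) : Prop :=
  ∀ π : Equiv.Perm (Fin n), ∃ j < c.length, (List.ofFn π).Sublist (c.rotate j)

/-- The set of all positive lengths of universal cycles over an alphabet with `n` letters. -/
def universalLengths (n : ℕ) : Set ℕ :=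
  {m | 0 < m ∧ ∃ c : List (Fin n), c.length = m ∧ IsUniversal c}

end Pool.Agent.Lib.MP_71d90a_co
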