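import Mathlib
import Pool.Agent.Lib.MP_71d90a_co.Defs

/-!
A Boolean search, fast in the kernel, which checks that every arrangement of the letters of a list
is a subsequence of one of finitely many words.
-/

namespace Pool.Agent.Lib.MP_71d90a_co

/-- all ways to take one letter out of `rem` -/
noncomputable def bLoop (f : ℕ → List ℕ → Bool) (pre rem : List ℕ) : Bool :=
  List.rec (motive := fun _ => List ℕ → Bool) (fun _ => true)
    (fun y ys ih pre => cond (f y (pre.reverseAux ys)) (ih (y :: pre)) false) rem pre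

/-- pass to the part of `l` behind the first letter `y` -/
noncomputable def bAfter (y : ℕ) (dead : Bool) (k : List ℕ → Bool) (l : List ℕ) : Bool :=
  List.rec (motive := fun _ => Bool) dead
    (fun a l ih => cond (Nat.beq a y) (k l) ih) l

/-- read the letter `y` in all words of `st` -/
noncomputable def bStep (y : ℕ) (k : List (List ℕ) → Bool) (st acc : List (List ℕ)) : Bool :=
  List.rec (motive := fun _ => List (List ℕ) → Bool) (fun acc => k acc)
    (fun l _ ih acc => bAfter y (ih acc) (fun l' => ih (l' :: acc)) l) st acc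

/-- every arrangement of `rem` (a list of `k` letters) is a subsequence of a member of `st` -/
noncomputable def bChk (k : ℕ) (rem : List ℕ) (st : List (List ℕ)) : Bool :=
  Nat.rec (motive := fun _ => List ℕ → List (List ℕ) → Bool)
    (fun _ st => List.rec (motive := fun _ => Bool) false (fun _ _ _ => true) st)
    (fun _ ih rem st => List.rec (motive := fun _ => Bool) false
      (fun _ _ _ => bLoop (fun y rem' => bStep y (fun st' => ih rem' st') st []) [] rem) st)
    k rem st

lemma bLoop_spec (f : ℕ → List ℕ → Bool) (rem : List ℕ) : ∀ pre : List ℕ,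
    bLoop f pre rem = true → ∀ ys1 y ys2, rem = ys1 ++ y :: ys2 →
      f y ((ys1.reverse ++ pre).reverseAux ys2) = true := by
  induction rem with
  | nil => intro pre _ ys1 y ys2 h; simp at h
  | cons a l ih =>
    intro pre h ys1 y ys2 hr
    have h1 : cond (f a (pre.reverseAux l)) (bLoop f (a :: pre) l) false = true := h
    have h2 : f a (pre.reverseAux l) = true ∧ bLoop f (a :: pre) l = true := by
      cases hf : f a (pre.reverseAux l)
      · rw [hf] at h1; simp at h1
      · rw [hf] at h1; exact ⟨rfl, h1⟩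
    rcases ys1 with _ | ⟨b, ys1⟩
    · simp only [List.nil_append, List.cons.injEq] at hr
      obtain ⟨rfl, rfl⟩ := hr
      simpa using h2.1
    · simp only [List.cons_append, List.cons.injEq] at hr
      obtain ⟨rfl, hr⟩ := hr
      have := ih (a :: pre) h2.2 ys1 y ys2 hr
      simpa [List.reverse_cons, List.append_assoc] using this

lemma bAfter_spec (y : ℕ) (dead : Bool) (k : List ℕ → Bool) (l : List ℕ)
    (h : bAfter y dead k l = true) :
    dead = true ∨ ∃ l', k l' = true ∧ ∀ p : List ℕ, p.Sublist l' → (y :: p).Sublist l := by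
  induction l with
  | nil => exact Or.inl h
  | cons a l ih =>
    have h1 : cond (Nat.beq a y) (k l) (bAfter y dead k l) = true := h
    cases hb : Nat.beq a y
    · rw [hb] at h1
      rcases ih h1 with h2 | ⟨l', h2, h3⟩
      · exact Or.inl h2
      · exact Or.inr ⟨l', h2, fun p hp => (h3 p hp).cons a⟩
    · rw [hb] at h1
      have hay : a = y := Nat.eq_of_beq_eq_true hb
      subst hay
      exact Or.inr ⟨l, h1, fun p hp => hp.cons_cons a⟩

lemma bStep_spec (y : ℕ) (k : List (List ℕ) → Bool) (st : List (List ℕ)) :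
    ∀ acc : List (List ℕ), bStep y k st acc = true →
      ∃ st', k st' = true ∧ ∀ l' ∈ st', l' ∈ acc ∨
        ∃ l ∈ st, ∀ p : List ℕ, p.Sublist l' → (y :: p).Sublist l := by
  induction st with
  | nil => intro acc h; exact ⟨acc, h, fun l' hl' => Or.inl hl'⟩
  | cons l st ih =>
    intro acc h
    have h1 : bAfter y (bStep y k st acc) (fun l' => bStep y k st (l' :: acc)) l = true := h
    rcases bAfter_spec _ _ _ _ h1 with h2 | ⟨l', h2, h3⟩
    · obtain ⟨st', h4, h5⟩ := ih acc h2
      refine ⟨st', h4, fun m hm => ?_⟩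
      rcases h5 m hm with h6 | ⟨q, hq, h6⟩
      · exact Or.inl h6
      · exact Or.inr ⟨q, List.mem_cons_of_mem _ hq, h6⟩
    · obtain ⟨st', h4, h5⟩ := ih (l' :: acc) h2
      refine ⟨st', h4, fun m hm => ?_⟩
      rcases h5 m hm with h6 | ⟨q, hq, h6⟩
      · rcases List.mem_cons.1 h6 with rfl | h7
        · exact Or.inr ⟨l, List.mem_cons_self, h3⟩
        · exact Or.inl h7
      · exact Or.inr ⟨q, List.mem_cons_of_mem _ hq, h6⟩

lemma bChk_spec (k : ℕ) : ∀ (rem : List ℕ) (st : List (List ℕ)), rem.length = k →
    bChk k rem st = true → ∀ p : List ℕ, p.Perm rem → ∃ l ∈ st, p.Sublist l := by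
  induction k with
  | zero =>
    intro rem st hr h p hp
    have h0 : p = [] := by
      apply List.eq_nil_of_length_eq_zero
      rw [hp.length_eq, hr]
    rcases st with _ | ⟨l, st⟩
    · exact absurd h (by show (false = true) → False; simp)
    · exact ⟨l, List.mem_cons_self, by rw [h0]; exact List.nil_sublist l⟩
  | succ k ih =>
    intro rem st hr h p hp
    have hl : p.length = k + 1 := by rw [hp.length_eq, hr]
    rcases p with _ | ⟨y, p⟩
    · simp at hl
    have hy : y ∈ rem := hp.subset List.mem_cons_self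
    obtain ⟨ys1, ys2, rfl⟩ := List.append_of_mem hy
    have hloop : bLoop (fun y rem' => bStep y (fun st' => bChk k rem' st') st []) []
        (ys1 ++ y :: ys2) = true := by
      rcases st with _ | ⟨l, st⟩
      · exact absurd h (by show (false = true) → False; simp)
      · exact h
    have h1 := bLoop_spec _ _ _ hloop ys1 y ys2 rfl
    have h2 : (ys1.reverse ++ []).reverseAux ys2 = ys1 ++ ys2 := by
      simp [List.reverseAux_eq]
    rw [h2] at h1
    obtain ⟨st', h3, h4⟩ := bStep_spec _ _ _ _ h1
    have hp' : p.Perm (ys1 ++ ys2) := by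
      have := hp.trans List.perm_middle
      exact this.cons_inv
    have hlen : (ys1 ++ ys2).length = k := by
      rw [← hp'.length_eq]; simpa using hl
    obtain ⟨l', hl', h5⟩ := ih _ _ hlen h3 p hp'
    rcases h4 l' hl' with h6 | ⟨l, hl2, h6⟩
    · simp at h6
    · exact ⟨l, hl2, h6 p h5⟩

/-- cyclic shift of a subsequence -/
lemma rotate_swap {α : Type*} (w a b : List α) (j : ℕ) (hw : 0 < w.length)
    (h : (a ++ b).Sublist (w.rotate j)) : ∃ i < w.length, (b ++ a).Sublist (w.rotate i) := by
  obtain ⟨r1, r2, hr, h1, h2⟩ := List.append_sublist_iff.1 h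
  refine ⟨(j + r1.length) % w.length, Nat.mod_lt _ hw, ?_⟩
  rw [List.rotate_mod, ← List.rotate_rotate, hr, List.rotate_append_length_eq]
  exact h2.append h1

/-- every arrangement of `rem` is a subsequence of a member of `st` -/
def Cov (rem : List ℕ) (st : List (List ℕ)) : Prop :=
  ∀ p : List ℕ, p.Perm rem → ∃ l ∈ st, p.Sublist l

lemma cov_of_bChk (rem : List ℕ) (st : List (List ℕ)) (h : bChk rem.length rem st = true) :
    Cov rem st := bChk_spec _ rem st rfl h

/-- split the check according to the first letter; `(y :: l')` is a suffix of a member of `st` -/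
lemma cov_split (rem : List ℕ) (st : List (List ℕ)) (hrem : rem ≠ [])
    (h : ∀ y ∈ rem, ∃ st' : List (List ℕ), Cov (rem.erase y) st' ∧
      ∀ l' ∈ st', ∃ l ∈ st, (y :: l').IsSuffix l) : Cov rem st := by
  intro p hp
  rcases p with _ | ⟨y, p⟩
  · exact absurd hp.symm.eq_nil hrem
  have hy : y ∈ rem := hp.subset List.mem_cons_self
  obtain ⟨st', h1, h2⟩ := h y hy
  have h3 : p.Perm (rem.erase y) := (hp.trans (List.perm_cons_erase hy)).cons_inv
  obtain ⟨l', hl', h4⟩ := h1 p h3
  obtain ⟨l, hl, h5⟩ := h2 l' hl'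
  exact ⟨l, hl, (h4.cons_cons y).trans h5.sublist⟩

/-- the check gives universality -/
lemma universal_of_cov {n : ℕ} (c : List (Fin n)) (rem : List ℕ) (st : List (List ℕ))
    (hc : 0 < c.length) (hr : (0 :: rem).Perm (List.range n))
    (hst : ∀ l ∈ st, ∃ j < c.length, ((c.map Fin.val).rotate j) = 0 :: l)
    (h : Cov rem st) : IsUniversal c := by
  intro π
  have hp : ((List.ofFn π).map Fin.val).Perm (List.range n) := by
    rw [List.map_ofFn]
    refine (Equiv.Perm.ofFn_comp_perm π (fun i : Fin n => (i : ℕ))).trans ?_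
    rw [List.ofFn_eq_map, ← List.map_coe_finRange_eq_range]
  have h0 : 0 ∈ (List.ofFn π).map Fin.val := hp.symm.subset (hr.subset List.mem_cons_self)
  obtain ⟨p1, p2, hpe⟩ := List.append_of_mem h0
  have hq : (p2 ++ p1).Perm rem := by
    have e1 : (p1 ++ 0 :: p2).Perm (0 :: rem) := by
      rw [← hpe]; exact hp.trans hr.symm
    have e2 : (0 :: (p2 ++ p1)).Perm (p1 ++ 0 :: p2) := by
      have : (0 :: p2 ++ p1).Perm (p1 ++ 0 :: p2) := List.perm_append_comm
      simpa using this
    exact (e2.trans e1).cons_inv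
  obtain ⟨l, hl, h1⟩ := h _ hq
  obtain ⟨j, _, hj⟩ := hst l hl
  have h2 : ((0 :: p2) ++ p1).Sublist ((c.map Fin.val).rotate j) := by
    rw [hj]
    simpa using h1.cons_cons 0
  obtain ⟨i, hi, h3⟩ := rotate_swap _ _ _ _ (by simpa using hc) h2
  rw [← hpe] at h3
  refine ⟨i, by simpa using hi, ?_⟩
  rw [← List.map_rotate] at h3
  obtain ⟨l', h4, h5⟩ := List.sublist_map_iff.1 h3
  have h6 : List.ofFn π = l' := List.map_injective_iff.2 Fin.val_injective h5
  rw [h6]; exact h4

end Pool.Agent.Lib.MP_71d90a_co
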