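import Mathlib

/-!
Counting permutations: waiting times, greedy pointers, the Lehmer type code of a permutation relative
to waiting times, and the number of permutations sending a set of places into a set of values.
-/

namespace Pool.Agent.Lib.MP_71d90a_co

open Finset

variable {n : ℕ}

/-- waiting time of the letter `x` from time `t`: one more than the number of skipped letters. -/
noncomputable def wt (W : ℕ → Fin n) (t : ℕ) (x : Fin n) : ℕ := sInf {s | W (t + s) = x} + 1

lemma wt_pos (W : ℕ → Fin n) (t : ℕ) (x : Fin n) : 0 < wt W t x := Nat.succ_pos _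

lemma wt_spec {W : ℕ → Fin n} (hW : ∀ t x, ∃ s, W (t + s) = x) (t : ℕ) (x : Fin n) :
    W (t + (wt W t x - 1)) = x := by
  have h : sInf {s | W (t + s) = x} ∈ {s | W (t + s) = x} := Nat.sInf_mem (hW t x)
  simpa [wt] using h

lemma wt_le {W : ℕ → Fin n} {t s : ℕ} {x : Fin n} (h : W (t + s) = x) : wt W t x ≤ s + 1 := by
  have : sInf {s | W (t + s) = x} ≤ s := Nat.sInf_le h
  unfold wt
  omega

lemma wt_inj {W : ℕ → Fin n} (hW : ∀ t x, ∃ s, W (t + s) = x) {t : ℕ} {x y : Fin n}
    (h : wt W t x = wt W t y) : x = y := by
  rw [← wt_spec hW t x, ← wt_spec hW t y, h]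

/-- the letters which arrive not later than `x`. -/
noncomputable def top (W : ℕ → Fin n) (p : ℕ) (x : Fin n) : Finset (Fin n) :=
  univ.filter (fun y => wt W p y ≤ wt W p x)

lemma card_top_le {W : ℕ → Fin n} (hW : ∀ t x, ∃ s, W (t + s) = x) (p : ℕ) (x : Fin n) :
    (top W p x).card ≤ wt W p x := by
  have h : (top W p x).card ≤ (range (wt W p x)).card := by
    refine Finset.card_le_card_of_injOn (fun y => wt W p y - 1) ?_ ?_
    · intro y hy
      have hy' : wt W p y ≤ wt W p x := by simpa [top] using hy
      have := wt_pos W p y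
      simp only [coe_range, Set.mem_Iio]
      omega
    · intro y _ z _ hyz
      have h1 := wt_pos W p y
      have h2 := wt_pos W p z
      have h3 : wt W p y - 1 = wt W p z - 1 := hyz
      have h4 : wt W p y = wt W p z := by omega
      exact wt_inj hW h4
  simpa using h

/-- the greedy pointer -/
noncomputable def ptr (W : ℕ → Fin n) (s : ℕ → Fin n) (j : ℕ) : ℕ → ℕ
  | 0 => j
  | i + 1 => ptr W s j i + wt W (ptr W s j i) (s i)

lemma ptr_eq_sum (W : ℕ → Fin n) (s : ℕ → Fin n) (j i : ℕ) :
    ptr W s j i = j + ∑ l ∈ range i, wt W (ptr W s j l) (s l) := by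
  induction i with
  | zero => simp [ptr]
  | succ i ih =>
    rw [sum_range_succ, ← add_assoc, ← ih]
    rfl

lemma ptr_le {W : ℕ → Fin n} {s : ℕ → Fin n} {j N : ℕ} {f : ℕ → ℕ}
    (hf : ∀ i, i < N → W (j + f i) = s i) (hmono : ∀ i, i + 1 < N → f i < f (i + 1)) :
    ∀ i, i < N → ptr W s j (i + 1) ≤ j + f i + 1 := by
  intro i
  induction i with
  | zero =>
    intro h
    have := wt_le (hf 0 h)
    show j + wt W j (s 0) ≤ j + f 0 + 1
    omega
  | succ i ih =>
    intro h
    have h1 := ih (by omega)
    have h2 := hmono i h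
    have h3 : W (ptr W s j (i + 1) + (j + f (i + 1) - ptr W s j (i + 1))) = s (i + 1) := by
      rw [show ptr W s j (i + 1) + (j + f (i + 1) - ptr W s j (i + 1)) = j + f (i + 1) by omega]
      exact hf _ h
    have h4 := wt_le h3
    show ptr W s j (i + 1) + wt W (ptr W s j (i + 1)) (s (i + 1)) ≤ j + f (i + 1) + 1
    omega

lemma ptr_congr (W : ℕ → Fin n) {s s' : ℕ → Fin n} (j : ℕ) {i : ℕ} (h : ∀ l, l < i → s l = s' l) :
    ptr W s j i = ptr W s' j i := by
  induction i with
  | zero => rfl
  | succ i ih =>
    have h1 := ih (fun l hl => h l (by omega))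
    show ptr W s j i + wt W (ptr W s j i) (s i) = ptr W s' j i + wt W (ptr W s' j i) (s' i)
    rw [h1, h i (by omega)]

/-- a permutation as a sequence of letters (indices are taken modulo `n`) -/
def seq [NeZero n] (π : Equiv.Perm (Fin n)) (i : ℕ) : Fin n := π (Fin.ofNat n i)

/-- the set of letters which are still to come at step `i` -/
def rest (π : Equiv.Perm (Fin n)) (i : ℕ) : Finset (Fin n) := univ.filter (fun y => i ≤ (π.symm y : ℕ))

lemma card_ge_filter (i : ℕ) : (univ.filter (fun l : Fin n => i ≤ (l : ℕ))).card = n - i := by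
  have h : (univ.filter (fun l : Fin n => i ≤ (l : ℕ))).map Fin.valEmbedding = Finset.Ico i n := by
    ext a
    simp only [mem_map, mem_filter, mem_univ, true_and, Fin.valEmbedding_apply, mem_Ico]
    constructor
    · rintro ⟨l, hl, rfl⟩
      exact ⟨hl, l.2⟩
    · rintro ⟨h1, h2⟩
      exact ⟨⟨a, h2⟩, h1, rfl⟩
  rw [← card_map Fin.valEmbedding, h, Nat.card_Ico]

lemma card_rest (π : Equiv.Perm (Fin n)) (i : ℕ) : (rest π i).card = n - i := by
  have h : (rest π i) = (univ.filter (fun l : Fin n => i ≤ (l : ℕ))).map π.toEmbedding := by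
    ext y
    simp only [rest, mem_filter, mem_univ, true_and, mem_map, Equiv.coe_toEmbedding]
    constructor
    · intro h
      exact ⟨π.symm y, h, by simp⟩
    · rintro ⟨l, hl, rfl⟩
      simpa using hl
  rw [h, card_map, card_ge_filter]

/-- the code: relative rank of the `i`-th letter, by waiting time, among the letters to come. -/
noncomputable def code [NeZero n] (W : ℕ → Fin n) (j : ℕ) (π : Equiv.Perm (Fin n)) (i : Fin n) : ℕ :=
  (rest π i ∩ top W (ptr W (seq π) j i) (π i)).card

lemma code_pos [NeZero n] (W : ℕ → Fin n) (j : ℕ) (π : Equiv.Perm (Fin n)) (i : Fin n) :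
    1 ≤ code W j π i := by
  apply Finset.card_pos.mpr
  exact ⟨π i, by simp [rest, top]⟩

lemma code_le [NeZero n] (W : ℕ → Fin n) (j : ℕ) (π : Equiv.Perm (Fin n)) (i : Fin n) :
    code W j π i ≤ n - i := by
  rw [← card_rest π i]
  exact card_le_card inter_subset_left

lemma seq_lt [NeZero n] (π : Equiv.Perm (Fin n)) {i : ℕ} (h : i < n) : seq π i = π ⟨i, h⟩ := by
  unfold seq
  congr 1
  apply Fin.ext
  simp [Fin.ofNat, Nat.mod_eq_of_lt h]

lemma card_inter_top_lt {W : ℕ → Fin n} (R : Finset (Fin n))
    (p : ℕ) {x y : Fin n} (hy : y ∈ R) (h : wt W p x < wt W p y) :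
    (R ∩ top W p x).card < (R ∩ top W p y).card := by
  apply card_lt_card
  refine ⟨?_, ?_⟩
  · intro z hz
    simp only [top, mem_inter, mem_filter, mem_univ, true_and] at hz ⊢
    exact ⟨hz.1, by omega⟩
  · intro hsub
    have h1 : y ∈ R ∩ top W p y := by simp [top, hy]
    have h2 := hsub h1
    simp only [top, mem_inter, mem_filter, mem_univ, true_and] at h2
    omega

lemma code_injective [NeZero n] {W : ℕ → Fin n} (hW : ∀ t x, ∃ s, W (t + s) = x) (j : ℕ) :
    Function.Injective (fun π : Equiv.Perm (Fin n) => code W j π) := by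
  intro π π' hcode
  have key : ∀ i, ∀ (h : i < n), π ⟨i, h⟩ = π' ⟨i, h⟩ := by
    intro i
    induction i using Nat.strong_induction_on with
    | _ i ih =>
      intro h
      have hptr : ptr W (seq π) j i = ptr W (seq π') j i := by
        apply ptr_congr
        intro l hl
        rw [seq_lt π (hl.trans h), seq_lt π' (hl.trans h)]
        exact ih l hl _
      have hrest : rest π i = rest π' i := by
        ext y
        simp only [rest, mem_filter, mem_univ, true_and]
        constructor
        · intro h1
          by_contra h2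
          push Not at h2
          have h3 := ih (π'.symm y : ℕ) h2 (π'.symm y).2
          have h4 : π (π'.symm y) = y := by
            have : π' ⟨(π'.symm y : ℕ), (π'.symm y).2⟩ = y := by simp
            rw [← h3] at this
            simpa using this
          have h5 : π.symm y = π'.symm y := by rw [Equiv.symm_apply_eq]; exact h4.symm
          rw [h5] at h1
          omega
        · intro h1
          by_contra h2
          push Not at h2
          have h3 := ih (π.symm y : ℕ) h2 (π.symm y).2
          have h4 : π' (π.symm y) = y := by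
            have : π ⟨(π.symm y : ℕ), (π.symm y).2⟩ = y := by simp
            rw [h3] at this
            simpa using this
          have h5 : π'.symm y = π.symm y := by rw [Equiv.symm_apply_eq]; exact h4.symm
          rw [h5] at h1
          omega
      have hc : code W j π ⟨i, h⟩ = code W j π' ⟨i, h⟩ := by
        have := congrFun hcode ⟨i, h⟩
        exact this
      unfold code at hc
      simp only at hc
      rw [hptr, hrest] at hc
      have m1 : π ⟨i, h⟩ ∈ rest π' i := by rw [← hrest]; simp [rest]
      have m2 : π' ⟨i, h⟩ ∈ rest π' i := by simp [rest]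
      rcases Nat.lt_trichotomy (wt W (ptr W (seq π') j i) (π ⟨i, h⟩))
        (wt W (ptr W (seq π') j i) (π' ⟨i, h⟩)) with h1 | h1 | h1
      · have := card_inter_top_lt (rest π' i) _ m2 h1
        omega
      · exact wt_inj hW h1
      · have := card_inter_top_lt (rest π' i) _ m1 h1
        omega
  ext i
  rw [key i i.2]

/-- permutations sending all places of `J` into `T`. -/
def good (J T : Finset (Fin n)) : Finset (Equiv.Perm (Fin n)) :=
  univ.filter (fun π => ∀ l ∈ J, π l ∈ T)

lemma card_good_insert_eq (J T : Finset (Fin n)) {l l' : Fin n} (hl : l ∉ J) (hl' : l' ∉ J) :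
    (good (insert l J) T).card = (good (insert l' J) T).card := by
  have key : ∀ {a b : Fin n}, a ∉ J → b ∉ J → ∀ π ∈ good (insert a J) T,
      π * Equiv.swap a b ∈ good (insert b J) T := by
    intro a b ha hb π hπ
    simp only [good, mem_filter, mem_univ, true_and, mem_insert, forall_eq_or_imp] at hπ ⊢
    refine ⟨by simpa using hπ.1, ?_⟩
    intro c hc
    have h1 : c ≠ a := fun h => ha (h ▸ hc)
    have h2 : c ≠ b := fun h => hb (h ▸ hc)
    rw [Equiv.Perm.mul_apply, Equiv.swap_apply_of_ne_of_ne h1 h2]
    exact hπ.2 c hc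
  refine Finset.card_nbij' (fun π => π * Equiv.swap l l') (fun π => π * Equiv.swap l' l) ?_ ?_ ?_ ?_
  · intro π hπ
    exact key hl hl' π hπ
  · intro π hπ
    exact key hl' hl π hπ
  · intro π _
    simp [mul_assoc, Equiv.swap_comm l' l]
  · intro π _
    simp [mul_assoc, Equiv.swap_comm l' l]

lemma card_good_insert (J T : Finset (Fin n)) {l₀ : Fin n} (hl : l₀ ∉ J) :
    (n : ℝ) * ((good (insert l₀ J) T).card : ℝ) ≤ (T.card : ℝ) * ((good J T).card : ℝ) := by
  classical
  -- double counting
  have h1 : ∑ l ∈ Jᶜ, (good (insert l J) T).card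
      = ∑ π ∈ good J T, (Jᶜ.filter (fun l => π l ∈ T)).card := by
    have : ∀ l ∈ Jᶜ, (good (insert l J) T).card = ((good J T).filter (fun π => π l ∈ T)).card := by
      intro l hl
      congr 1
      ext π
      simp only [good, mem_filter, mem_univ, true_and, mem_insert, forall_eq_or_imp]
      tauto
    rw [sum_congr rfl this]
    simp_rw [card_eq_sum_ones, sum_filter]
    rw [sum_comm]
  have h2 : ∑ l ∈ Jᶜ, (good (insert l J) T).card = (n - J.card) * (good (insert l₀ J) T).card := by
    rw [sum_congr rfl (fun l hl' => card_good_insert_eq J T (mem_compl.mp hl') hl), sum_const,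
      card_compl, Fintype.card_fin, smul_eq_mul]
  have h3 : ∀ π ∈ good J T, (Jᶜ.filter (fun l => π l ∈ T)).card + J.card = T.card := by
    intro π hπ
    have hJ : ∀ l ∈ J, π l ∈ T := by simpa [good] using hπ
    have e1 : (univ.filter (fun l => π l ∈ T)).card = T.card := by
      have : univ.filter (fun l => π l ∈ T) = T.map π.symm.toEmbedding := by
        ext l
        simp only [mem_filter, mem_univ, true_and, mem_map, Equiv.coe_toEmbedding]
        constructor
        · intro h
          exact ⟨π l, h, by simp⟩
        · rintro ⟨y, hy, rfl⟩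
          simpa using hy
      rw [this, card_map]
    have e2 : univ.filter (fun l => π l ∈ T) = Jᶜ.filter (fun l => π l ∈ T) ∪ J := by
      ext l
      simp only [mem_filter, mem_univ, true_and, mem_union, mem_compl]
      constructor
      · intro h
        by_cases hl : l ∈ J
        · exact Or.inr hl
        · exact Or.inl ⟨hl, h⟩
      · rintro (h | h)
        · exact h.2
        · exact hJ l h
    rw [← e1, e2, card_union_of_disjoint]
    rw [Finset.disjoint_left]
    intro l h4 h5
    simp only [mem_filter, mem_compl] at h4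
    exact h4.1 h5
  have hJn : J.card < n := by
    have : J.card < (insert l₀ J).card := by rw [card_insert_of_notMem hl]; omega
    have h' : (insert l₀ J).card ≤ n := by
      have := card_le_univ (insert l₀ J)
      simpa using this
    omega
  have hTn : T.card ≤ n := by
    have := card_le_univ T
    simpa using this
  rcases (good J T).eq_empty_or_nonempty with hemp | ⟨π₀, hπ₀⟩
  · have : good (insert l₀ J) T = ∅ := by
      apply Finset.subset_empty.mp
      rw [← hemp]
      intro π hπ
      simp only [good, mem_filter, mem_univ, true_and, mem_insert, forall_eq_or_imp] at hπ ⊢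
      exact hπ.2
    rw [this, hemp]
    simp
  · have hJT : J.card ≤ T.card := by
      have := h3 π₀ hπ₀
      omega
    have h4 : (n - J.card) * (good (insert l₀ J) T).card = (T.card - J.card) * (good J T).card := by
      rw [← h2, h1, sum_congr rfl (fun π hπ => show _ = T.card - J.card from by
        have := h3 π hπ
        omega), sum_const, smul_eq_mul, mul_comm]
    have h5 : ((n : ℝ) - J.card) * ((good (insert l₀ J) T).card : ℝ)
        = ((T.card : ℝ) - J.card) * ((good J T).card : ℝ) := by
      have := congrArg (Nat.cast : ℕ → ℝ) h4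
      push_cast [Nat.cast_sub hJn.le, Nat.cast_sub hJT] at this
      exact this
    have hpos : (0 : ℝ) < (n : ℝ) - J.card := by
      have : (J.card : ℝ) < n := by exact_mod_cast hJn
      linarith
    have hTn' : (T.card : ℝ) ≤ n := by exact_mod_cast hTn
    have hG : (0 : ℝ) ≤ ((good J T).card : ℝ) := Nat.cast_nonneg _
    have hJ0 : (0 : ℝ) ≤ (J.card : ℝ) := Nat.cast_nonneg _
    have h6 : ((n : ℝ) - J.card) * ((n : ℝ) * ((good (insert l₀ J) T).card : ℝ))
        ≤ ((n : ℝ) - J.card) * ((T.card : ℝ) * ((good J T).card : ℝ)) := by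
      have e : ((n : ℝ) - J.card) * ((n : ℝ) * ((good (insert l₀ J) T).card : ℝ))
          = n * (((T.card : ℝ) - J.card) * ((good J T).card : ℝ)) := by
        rw [← h5]; ring
      rw [e]
      have : (n : ℝ) * ((T.card : ℝ) - J.card) ≤ ((n : ℝ) - J.card) * T.card := by nlinarith
      nlinarith
    exact le_of_mul_le_mul_left h6 hpos

lemma card_good_le (hn : 0 < n) (J T : Finset (Fin n)) :
    ((good J T).card : ℝ) ≤ (n.factorial : ℝ) * ((T.card : ℝ) / n) ^ J.card := by
  classical
  have hn' : (0 : ℝ) < n := by exact_mod_cast hn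
  induction J using Finset.induction_on with
  | empty =>
    simp only [card_empty, pow_zero, mul_one]
    have : (good (∅ : Finset (Fin n)) T).card ≤ n.factorial := by
      have h := card_le_univ (good (∅ : Finset (Fin n)) T)
      rwa [Fintype.card_perm, Fintype.card_fin] at h
    exact_mod_cast this
  | insert l J hl ih =>
    rw [card_insert_of_notMem hl, pow_succ]
    have h := card_good_insert J T hl
    have h2 : ((good (insert l J) T).card : ℝ) ≤ (T.card : ℝ) / n * ((good J T).card : ℝ) := by
      rw [div_mul_eq_mul_div, le_div_iff₀ hn']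
      linarith
    calc ((good (insert l J) T).card : ℝ) ≤ (T.card : ℝ) / n * ((good J T).card : ℝ) := h2
      _ ≤ (T.card : ℝ) / n * ((n.factorial : ℝ) * ((T.card : ℝ) / n) ^ J.card) := by
          apply mul_le_mul_of_nonneg_left ih
          positivity
      _ = _ := by ring

/-- exponential moment of the number of places of `I` sent into `T`. -/
lemma sum_pow_le (hn : 0 < n) (I T : Finset (Fin n)) {s : ℝ} (hs : 0 ≤ s) :
    ∑ π : Equiv.Perm (Fin n), (1 + s) ^ (I.filter (fun l => π l ∈ T)).card
      ≤ (n.factorial : ℝ) * (1 + s * ((T.card : ℝ) / n)) ^ I.card := by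
  classical
  have h1 : ∀ π : Equiv.Perm (Fin n), (1 + s) ^ (I.filter (fun l => π l ∈ T)).card
      = ∑ J ∈ I.powerset, s ^ J.card * (if π ∈ good J T then 1 else 0) := by
    intro π
    have e1 : (1 + s) ^ (I.filter (fun l => π l ∈ T)).card
        = ∏ l ∈ I, (1 + (if π l ∈ T then s else 0)) := by
      rw [← Finset.prod_filter_mul_prod_filter_not I (fun l => π l ∈ T)]
      rw [Finset.prod_congr rfl (g := fun _ => 1 + s), Finset.prod_const,
        Finset.prod_congr (rfl : I.filter (fun l => ¬ π l ∈ T) = _) (g := fun _ => (1 : ℝ)),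
        Finset.prod_const_one, mul_one]
      · intro l hl
        rw [if_neg (mem_filter.mp hl).2, add_zero]
      · intro l hl
        rw [if_pos (mem_filter.mp hl).2]
    rw [e1, Finset.prod_one_add]
    apply sum_congr rfl
    intro J _
    by_cases hJ : ∀ l ∈ J, π l ∈ T
    · rw [if_pos (by simpa [good] using hJ), mul_one,
        Finset.prod_congr rfl (g := fun _ => s) (fun l hl => if_pos (hJ l hl)), Finset.prod_const]
    · rw [if_neg (by simpa [good] using hJ), mul_zero]
      push Not at hJ
      obtain ⟨l, hl, hlT⟩ := hJ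
      exact Finset.prod_eq_zero hl (if_neg hlT)
  rw [sum_congr rfl (fun π _ => h1 π), sum_comm]
  have h2 : ∀ J ∈ I.powerset, ∑ π : Equiv.Perm (Fin n), s ^ J.card * (if π ∈ good J T then (1 : ℝ) else 0)
      ≤ (n.factorial : ℝ) * (s * ((T.card : ℝ) / n)) ^ J.card := by
    intro J _
    rw [← mul_sum, sum_boole]
    have e : (univ.filter (fun π => π ∈ good J T)) = good J T := by ext; simp
    rw [e, mul_pow]
    have := card_good_le hn J T
    calc s ^ J.card * ((good J T).card : ℝ)
        ≤ s ^ J.card * ((n.factorial : ℝ) * ((T.card : ℝ) / n) ^ J.card) :=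
          mul_le_mul_of_nonneg_left this (by positivity)
      _ = _ := by ring
  refine (sum_le_sum h2).trans ?_
  rw [← mul_sum]
  apply mul_le_mul_of_nonneg_left _ (by positivity)
  have := Finset.prod_one_add (f := fun _ : Fin n => s * ((T.card : ℝ) / n)) I
  simp only [prod_const] at this
  rw [this]

end Pool.Agent.Lib.MP_71d90a_co
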