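import Mathlib
import Pool.Agent.Lib.MP_71d90a_co.Lower1

/-!
Existence of a permutation which is bad for every starting place of a short periodic word.
-/

namespace Pool.Agent.Lib.MP_71d90a_co

open Finset

variable {n : ℕ}

lemma sum_exp_le (r : ℕ) (t : ℝ) :
    ∑ z ∈ Icc 1 r, Real.exp (t * ((z : ℝ) - ((r : ℝ) + 1) / 2)) ≤ r * Real.exp (t ^ 2 * r ^ 2 / 8) := by
  have h0 : ∑ z ∈ Icc 1 r, Real.exp (t * ((z : ℝ) - ((r : ℝ) + 1) / 2))
      = ∑ z ∈ Icc 1 r, Real.exp (-(t * ((z : ℝ) - ((r : ℝ) + 1) / 2))) := by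
    refine Finset.sum_nbij' (fun z => r + 1 - z) (fun z => r + 1 - z) ?_ ?_ ?_ ?_ ?_
    · intro z hz
      simp only [mem_Icc] at hz ⊢
      omega
    · intro z hz
      simp only [mem_Icc] at hz ⊢
      omega
    · intro z hz
      simp only [mem_Icc] at hz ⊢
      omega
    · intro z hz
      simp only [mem_Icc] at hz ⊢
      omega
    · intro z hz
      simp only [mem_Icc] at hz
      congr 1
      rw [Nat.cast_sub (by omega)]
      push_cast
      ring
  have h1 : 2 * ∑ z ∈ Icc 1 r, Real.exp (t * ((z : ℝ) - ((r : ℝ) + 1) / 2))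
      = ∑ z ∈ Icc 1 r, 2 * Real.cosh (t * ((z : ℝ) - ((r : ℝ) + 1) / 2)) := by
    rw [two_mul]
    nth_rewrite 2 [h0]
    rw [← sum_add_distrib]
    apply sum_congr rfl
    intro z _
    rw [Real.cosh_eq]
    ring
  have h2 : ∑ z ∈ Icc 1 r, 2 * Real.cosh (t * ((z : ℝ) - ((r : ℝ) + 1) / 2))
      ≤ ∑ z ∈ Icc 1 r, 2 * Real.exp (t ^ 2 * r ^ 2 / 8) := by
    apply sum_le_sum
    intro z hz
    simp only [mem_Icc] at hz
    have hz1 : (1 : ℝ) ≤ z := by exact_mod_cast hz.1
    have hz2 : (z : ℝ) ≤ r := by exact_mod_cast hz.2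
    have h3 := Real.cosh_le_exp_half_sq (t * ((z : ℝ) - ((r : ℝ) + 1) / 2))
    have h4 : (t * ((z : ℝ) - ((r : ℝ) + 1) / 2)) ^ 2 / 2 ≤ t ^ 2 * r ^ 2 / 8 := by
      have h5 : ((z : ℝ) - ((r : ℝ) + 1) / 2) ^ 2 ≤ (r / 2) ^ 2 := by
        apply sq_le_sq'
        · linarith
        · linarith
      have h6 : (0 : ℝ) ≤ t ^ 2 := sq_nonneg t
      calc (t * ((z : ℝ) - ((r : ℝ) + 1) / 2)) ^ 2 / 2
          = t ^ 2 * ((z : ℝ) - ((r : ℝ) + 1) / 2) ^ 2 / 2 := by ring
        _ ≤ t ^ 2 * (r / 2) ^ 2 / 2 := by gcongr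
        _ = _ := by ring
    have h7 := Real.exp_le_exp.mpr h4
    linarith
  rw [sum_const, Nat.card_Icc, nsmul_eq_mul, Nat.add_sub_cancel] at h2
  linarith

/-- exponential moment of the weighted code. -/
lemma sum_exp_code_le [NeZero n] {W : ℕ → Fin n} (hW : ∀ t x, ∃ s, W (t + s) = x) (j : ℕ) (lam : ℝ) :
    ∑ π : Equiv.Perm (Fin n), Real.exp (∑ i : Fin n,
        -lam * ((n : ℝ) / ((n - (i : ℕ) : ℕ) : ℝ)) * ((code W j π i : ℝ) - (((n - (i : ℕ) : ℕ) : ℝ) + 1) / 2))
      ≤ (n.factorial : ℝ) * Real.exp (lam ^ 2 * n ^ 3 / 8) := by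
  classical
  set g : Fin n → ℕ → ℝ := fun i z => Real.exp (-lam * ((n : ℝ) / ((n - (i : ℕ) : ℕ) : ℝ))
      * ((z : ℝ) - (((n - (i : ℕ) : ℕ) : ℝ) + 1) / 2)) with hg
  have e1 : ∀ π : Equiv.Perm (Fin n), Real.exp (∑ i : Fin n,
        -lam * ((n : ℝ) / ((n - (i : ℕ) : ℕ) : ℝ)) * ((code W j π i : ℝ) - (((n - (i : ℕ) : ℕ) : ℝ) + 1) / 2))
      = ∏ i, g i (code W j π i) := by
    intro π
    rw [Real.exp_sum]
  rw [sum_congr rfl (fun π _ => e1 π)]
  have e2 : ∑ π : Equiv.Perm (Fin n), ∏ i, g i (code W j π i)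
      = ∑ p ∈ (univ : Finset (Equiv.Perm (Fin n))).image (fun π => code W j π), ∏ i, g i (p i) := by
    rw [sum_image]
    intro π _ π' _ h
    exact code_injective hW j h
  have e3 : (univ : Finset (Equiv.Perm (Fin n))).image (fun π => code W j π)
      ⊆ Fintype.piFinset (fun i : Fin n => Icc 1 (n - (i : ℕ))) := by
    intro p hp
    simp only [mem_image, mem_univ, true_and] at hp
    obtain ⟨π, rfl⟩ := hp
    rw [Fintype.mem_piFinset]
    intro i
    rw [mem_Icc]
    exact ⟨code_pos W j π i, code_le W j π i⟩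
  rw [e2]
  refine (sum_le_sum_of_subset_of_nonneg e3 (fun p _ _ => prod_nonneg (fun i _ =>
    (Real.exp_pos _).le))).trans ?_
  have e5 := Finset.prod_univ_sum (fun i : Fin n => Icc 1 (n - (i : ℕ))) g
  show ∑ p ∈ Fintype.piFinset (fun i : Fin n => Icc 1 (n - (i : ℕ))), ∏ i, g i (p i) ≤ _
  rw [← e5]
  have e4 : ∀ i : Fin n, ∑ z ∈ Icc 1 (n - (i : ℕ)), g i z
      ≤ ((n - (i : ℕ) : ℕ) : ℝ) * Real.exp (lam ^ 2 * n ^ 2 / 8) := by
    intro i
    have hpos : (0 : ℝ) < ((n - (i : ℕ) : ℕ) : ℝ) := by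
      have : 0 < n - (i : ℕ) := by have := i.2; omega
      exact_mod_cast this
    refine (sum_exp_le (n - (i : ℕ)) (-lam * ((n : ℝ) / ((n - (i : ℕ) : ℕ) : ℝ)))).trans ?_
    apply le_of_eq
    congr 2
    field_simp
  calc ∏ i : Fin n, ∑ z ∈ Icc 1 (n - (i : ℕ)), g i z
      ≤ ∏ i : Fin n, (((n - (i : ℕ) : ℕ) : ℝ) * Real.exp (lam ^ 2 * n ^ 2 / 8)) :=
        prod_le_prod (fun i _ => sum_nonneg (fun z _ => (Real.exp_pos _).le)) (fun i _ => e4 i)
    _ = (n.factorial : ℝ) * Real.exp (lam ^ 2 * n ^ 3 / 8) := by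
        rw [prod_mul_distrib, prod_const, card_univ, Fintype.card_fin, ← Real.exp_nat_mul]
        congr 1
        · rw [← Nat.cast_prod]
          congr 1
          rw [Fin.prod_univ_eq_prod_range (fun i => n - i) n]
          rw [← Finset.prod_range_add_one_eq_factorial, ← Finset.prod_range_reflect]
          apply prod_congr rfl
          intro i hi
          rw [mem_range] at hi
          omega
        · congr 1
          ring

/-- few permutations have a bad weighted code for the start `j`. -/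
lemma card_bad2 [NeZero n] {W : ℕ → Fin n} (hW : ∀ t x, ∃ s, W (t + s) = x) (j : ℕ) {L : ℝ}
    (hL : 0 ≤ L) :
    (((univ : Finset (Equiv.Perm (Fin n))).filter (fun π => ∑ i : Fin n,
        ((n : ℝ) / ((n - (i : ℕ) : ℕ) : ℝ)) * ((code W j π i : ℝ) - (((n - (i : ℕ) : ℕ) : ℝ) + 1) / 2)
          ≤ - Real.sqrt (n ^ 3 * L / 2))).card : ℝ)
      ≤ (n.factorial : ℝ) * Real.exp (-L) := by
  classical
  have hn : (0 : ℝ) < n := by
    have := Nat.pos_of_ne_zero (NeZero.ne n)
    exact_mod_cast this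
  set s := Real.sqrt (n ^ 3 * L / 2) with hs
  have hs2 : s ^ 2 = n ^ 3 * L / 2 := Real.sq_sqrt (by positivity)
  set lam : ℝ := 4 * s / n ^ 3 with hlam
  have hlam0 : 0 ≤ lam := by have := Real.sqrt_nonneg (n ^ 3 * L / 2); positivity
  have h := sum_exp_code_le hW j lam
  set B := (univ : Finset (Equiv.Perm (Fin n))).filter (fun π => ∑ i : Fin n,
        ((n : ℝ) / ((n - (i : ℕ) : ℕ) : ℝ)) * ((code W j π i : ℝ) - (((n - (i : ℕ) : ℕ) : ℝ) + 1) / 2)
          ≤ - s) with hB
  have h1 : (B.card : ℝ) * Real.exp (lam * s) ≤ ∑ π : Equiv.Perm (Fin n), Real.exp (∑ i : Fin n,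
        -lam * ((n : ℝ) / ((n - (i : ℕ) : ℕ) : ℝ))
          * ((code W j π i : ℝ) - (((n - (i : ℕ) : ℕ) : ℝ) + 1) / 2)) := by
    calc (B.card : ℝ) * Real.exp (lam * s) = ∑ π ∈ B, Real.exp (lam * s) := by
          rw [sum_const, nsmul_eq_mul]
      _ ≤ ∑ π ∈ B, Real.exp (∑ i : Fin n,
            -lam * ((n : ℝ) / ((n - (i : ℕ) : ℕ) : ℝ))
              * ((code W j π i : ℝ) - (((n - (i : ℕ) : ℕ) : ℝ) + 1) / 2)) := by
          apply sum_le_sum
          intro π hπ
          apply Real.exp_le_exp.mpr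
          have h2 := (mem_filter.mp hπ).2
          have h3 : ∑ i : Fin n, -lam * ((n : ℝ) / ((n - (i : ℕ) : ℕ) : ℝ))
              * ((code W j π i : ℝ) - (((n - (i : ℕ) : ℕ) : ℝ) + 1) / 2)
              = -lam * ∑ i : Fin n, ((n : ℝ) / ((n - (i : ℕ) : ℕ) : ℝ))
              * ((code W j π i : ℝ) - (((n - (i : ℕ) : ℕ) : ℝ) + 1) / 2) := by
            rw [mul_sum]
            apply sum_congr rfl
            intro i _
            ring
          rw [h3]
          nlinarith
      _ ≤ _ := sum_le_sum_of_subset_of_nonneg (subset_univ _) (fun _ _ _ => (Real.exp_pos _).le)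
  have h2 : (B.card : ℝ) * Real.exp (lam * s) ≤ (n.factorial : ℝ) * Real.exp (lam ^ 2 * n ^ 3 / 8) :=
    h1.trans h
  have h3 : lam * s = 2 * L := by
    rw [hlam]
    have : 4 * s / n ^ 3 * s = 4 * s ^ 2 / n ^ 3 := by ring
    rw [this, hs2]
    field_simp
    ring
  have h4 : lam ^ 2 * n ^ 3 / 8 = L := by
    rw [hlam, div_pow, mul_pow, hs2]
    field_simp
    ring
  rw [h3, h4] at h2
  have h5 : (B.card : ℝ) = (B.card : ℝ) * Real.exp (2 * L) * Real.exp (-(2 * L)) := by
    rw [mul_assoc, ← Real.exp_add]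
    simp
  calc (B.card : ℝ) = (B.card : ℝ) * Real.exp (2 * L) * Real.exp (-(2 * L)) := h5
    _ ≤ (n.factorial : ℝ) * Real.exp L * Real.exp (-(2 * L)) := by
        apply mul_le_mul_of_nonneg_right h2 (Real.exp_pos _).le
    _ = (n.factorial : ℝ) * Real.exp (-L) := by
        rw [mul_assoc, ← Real.exp_add]
        congr 2
        ring

lemma rest_inter_card (π : Equiv.Perm (Fin n)) (i : ℕ) (T : Finset (Fin n)) :
    (rest π i ∩ T).card = ((univ.filter (fun l : Fin n => i ≤ (l : ℕ))).filter (fun l => π l ∈ T)).card := by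
  have h : (rest π i ∩ T) = ((univ.filter (fun l : Fin n => i ≤ (l : ℕ))).filter
      (fun l => π l ∈ T)).map π.toEmbedding := by
    ext y
    simp only [rest, mem_inter, mem_filter, mem_univ, true_and, mem_map, Equiv.coe_toEmbedding]
    constructor
    · rintro ⟨h1, h2⟩
      exact ⟨π.symm y, ⟨h1, by simpa using h2⟩, by simp⟩
    · rintro ⟨l, ⟨h1, h2⟩, rfl⟩
      exact ⟨by simpa using h1, h2⟩
  rw [h, card_map]

/-- few permutations have too many letters of `T` among the last `n - i` ones. -/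
lemma card_bad1 (hn : 0 < n) {i : ℕ} (hi : i < n) (T : Finset (Fin n)) {L : ℝ} (hL : 0 < L) :
    (((univ : Finset (Equiv.Perm (Fin n))).filter (fun π =>
        (T.card : ℝ) / n * ((n - i : ℕ) : ℝ) + 2 * Real.sqrt (((n - i : ℕ) : ℝ) * L)
          ≤ ((rest π i ∩ T).card : ℝ))).card : ℝ)
      ≤ (n.factorial : ℝ) * Real.exp (-L) := by
  classical
  obtain ⟨r, hr⟩ : ∃ r : ℝ, r = ((n - i : ℕ) : ℝ) := ⟨_, rfl⟩
  have hr1 : 1 ≤ r := by
    rw [hr]
    have : 1 ≤ n - i := by omega
    exact_mod_cast this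
  have hn' : (0 : ℝ) < n := by exact_mod_cast hn
  have hq0 : (0 : ℝ) ≤ (T.card : ℝ) / n := by positivity
  have hq1 : (T.card : ℝ) / n ≤ 1 := by
    rw [div_le_one hn']
    have := card_le_univ T
    rw [Fintype.card_fin] at this
    exact_mod_cast this
  obtain ⟨q, hq⟩ : ∃ q : ℝ, q = (T.card : ℝ) / n := ⟨_, rfl⟩
  rw [← hq] at hq0 hq1
  rw [← hr, ← hq]
  have hcard : ∀ π : Equiv.Perm (Fin n), ((rest π i ∩ T).card : ℝ) ≤ r := by
    intro π
    rw [hr, ← card_rest π i]
    exact_mod_cast card_le_card inter_subset_left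
  rcases lt_or_ge r L with hrL | hrL
  · -- impossible event
    have : (univ : Finset (Equiv.Perm (Fin n))).filter (fun π =>
        q * r + 2 * Real.sqrt (r * L) ≤ ((rest π i ∩ T).card : ℝ)) = ∅ := by
      apply filter_eq_empty_iff.mpr
      intro π _
      push Not
      have h1 : r ≤ Real.sqrt (r * L) := by
        apply Real.le_sqrt_of_sq_le
        nlinarith
      have h2 := hcard π
      have h3 : 0 ≤ q * r := by positivity
      linarith
    rw [this]
    simp only [card_empty, Nat.cast_zero]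
    positivity
  · have hr0 : 0 < r := by linarith
    set lam := Real.sqrt (L / r) with hlam
    have hlam0 : 0 ≤ lam := Real.sqrt_nonneg _
    have hlam1 : lam ≤ 1 := by
      rw [hlam, Real.sqrt_le_one, div_le_one hr0]
      exact hrL
    have hlam2 : lam ^ 2 * r = L := by
      rw [hlam, Real.sq_sqrt (by positivity)]
      field_simp
    have hlam3 : lam * Real.sqrt (r * L) = L := by
      rw [hlam, ← Real.sqrt_mul (by positivity)]
      have : L / r * (r * L) = L ^ 2 := by field_simp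
      rw [this, Real.sqrt_sq hL.le]
    have hexp : Real.exp lam - 1 ≤ lam + lam ^ 2 := by
      have := Real.abs_exp_sub_one_sub_id_le (x := lam) (by rw [abs_of_nonneg hlam0]; exact hlam1)
      have h2 := (abs_le.mp this).2
      linarith
    have hs0 : 0 ≤ Real.exp lam - 1 := by
      have := Real.add_one_le_exp lam
      linarith
    set I : Finset (Fin n) := univ.filter (fun l : Fin n => i ≤ (l : ℕ)) with hI
    have hIc : (I.card : ℝ) = r := by rw [hI, card_ge_filter, hr]
    have h := sum_pow_le hn I T hs0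
    rw [← hq] at h
    have hbase : (1 + (Real.exp lam - 1) * q) ^ I.card ≤ Real.exp ((lam + lam ^ 2) * q * r) := by
      have h1 : 1 + (Real.exp lam - 1) * q ≤ Real.exp ((lam + lam ^ 2) * q) := by
        have h2 := Real.add_one_le_exp ((lam + lam ^ 2) * q)
        nlinarith
      have h3 : 0 ≤ 1 + (Real.exp lam - 1) * q := by positivity
      calc (1 + (Real.exp lam - 1) * q) ^ I.card ≤ (Real.exp ((lam + lam ^ 2) * q)) ^ I.card := by
            gcongr
        _ = Real.exp ((lam + lam ^ 2) * q * r) := by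
            rw [← Real.exp_nat_mul, hIc]
            congr 1
            ring
    set B := (univ : Finset (Equiv.Perm (Fin n))).filter (fun π =>
        q * r + 2 * Real.sqrt (r * L) ≤ ((rest π i ∩ T).card : ℝ)) with hB
    have h1 : (B.card : ℝ) * Real.exp (lam * (q * r + 2 * Real.sqrt (r * L)))
        ≤ ∑ π : Equiv.Perm (Fin n), (1 + (Real.exp lam - 1)) ^ (I.filter (fun l => π l ∈ T)).card := by
      calc (B.card : ℝ) * Real.exp (lam * (q * r + 2 * Real.sqrt (r * L)))
          = ∑ π ∈ B, Real.exp (lam * (q * r + 2 * Real.sqrt (r * L))) := by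
            rw [sum_const, nsmul_eq_mul]
        _ ≤ ∑ π ∈ B, (1 + (Real.exp lam - 1)) ^ (I.filter (fun l => π l ∈ T)).card := by
            apply sum_le_sum
            intro π hπ
            have h2 := (mem_filter.mp hπ).2
            rw [rest_inter_card] at h2
            have e : (1 + (Real.exp lam - 1)) = Real.exp lam := by ring
            rw [e, ← Real.exp_nat_mul]
            apply Real.exp_le_exp.mpr
            rw [mul_comm]
            exact mul_le_mul_of_nonneg_right h2 hlam0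
        _ ≤ _ := sum_le_sum_of_subset_of_nonneg (subset_univ _) (fun _ _ _ => by positivity)
    have h2 : (B.card : ℝ) * Real.exp (lam * (q * r + 2 * Real.sqrt (r * L)))
        ≤ (n.factorial : ℝ) * Real.exp ((lam + lam ^ 2) * q * r) :=
      (h1.trans h).trans (mul_le_mul_of_nonneg_left hbase (by positivity))
    have h3 : (B.card : ℝ) ≤ (n.factorial : ℝ) * Real.exp ((lam + lam ^ 2) * q * r)
        * Real.exp (-(lam * (q * r + 2 * Real.sqrt (r * L)))) := by
      have e : (B.card : ℝ) = (B.card : ℝ) * Real.exp (lam * (q * r + 2 * Real.sqrt (r * L)))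
          * Real.exp (-(lam * (q * r + 2 * Real.sqrt (r * L)))) := by
        rw [mul_assoc, ← Real.exp_add]
        simp
      rw [e]
      exact mul_le_mul_of_nonneg_right h2 (Real.exp_pos _).le
    refine h3.trans ?_
    rw [mul_assoc, ← Real.exp_add]
    apply mul_le_mul_of_nonneg_left _ (by positivity)
    apply Real.exp_le_exp.mpr
    have h4 : (lam + lam ^ 2) * q * r + -(lam * (q * r + 2 * Real.sqrt (r * L)))
        = q * (lam ^ 2 * r) - 2 * (lam * Real.sqrt (r * L)) := by ring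
    rw [h4, hlam2, hlam3]
    nlinarith

end Pool.Agent.Lib.MP_71d90a_co
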