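import Mathlib
import Pool.Agent.Lib.MP_71d90a_co.Lower2

/-!
Lower bound for the length of a cyclic word containing every permutation.
-/

namespace Pool.Agent.Lib.MP_71d90a_co

open Finset

variable {n : ℕ}

lemma top_periodic {W : ℕ → Fin n} {m : ℕ} (hper : ∀ t, W (t % m) = W t) (p : ℕ) (x : Fin n) :
    top W (p % m) x = top W p x := by
  have h : ∀ y, wt W (p % m) y = wt W p y := by
    intro y
    unfold wt
    congr 2
    ext s
    simp only [Set.mem_ofPred_eq]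
    rw [← hper (p % m + s), Nat.mod_add_mod, hper]
  unfold top
  simp_rw [h]

lemma sum_inv_sqrt_le (n : ℕ) : ∑ i ∈ range n, 1 / Real.sqrt ((i : ℝ) + 1) ≤ 2 * Real.sqrt n := by
  induction n with
  | zero => simp
  | succ n ih =>
    rw [sum_range_succ]
    have h1 : 0 < Real.sqrt ((n : ℝ) + 1) := Real.sqrt_pos.mpr (by positivity)
    have h2 : 0 ≤ Real.sqrt (n : ℝ) := Real.sqrt_nonneg _
    have h3 : Real.sqrt ((n : ℝ) + 1) ^ 2 = n + 1 := Real.sq_sqrt (by positivity)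
    have h4 : Real.sqrt (n : ℝ) ^ 2 = n := Real.sq_sqrt (by positivity)
    have h5 : 1 / Real.sqrt ((n : ℝ) + 1) ≤ 2 * Real.sqrt ((n : ℝ) + 1) - 2 * Real.sqrt n := by
      rw [div_le_iff₀ h1]
      nlinarith [sq_nonneg (Real.sqrt ((n : ℝ) + 1) - Real.sqrt n)]
    push_cast
    linarith

/-- the probabilistic heart: a periodic word of small period admits a permutation which is slow
from every start. -/
lemma exists_slow [NeZero n] (hn : 2 ≤ n) {W : ℕ → Fin n} (hW : ∀ t x, ∃ s, W (t + s) = x) {m : ℕ}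
    (hper : ∀ t, W (t % m) = W t) (hm : 0 < m) (hmn : (m : ℝ) < (n : ℝ) ^ 2 / 2) :
    ∃ π : Equiv.Perm (Fin n), ∀ j < m,
      (n : ℝ) ^ 2 / 2 - 9 * Real.sqrt (n ^ 3 * Real.log n)
        < ((∑ l ∈ range n, wt W (ptr W (seq π) j l) (seq π l) : ℕ) : ℝ) := by
  classical
  have hn0 : (0 : ℝ) < n := by
    have : 0 < n := by omega
    exact_mod_cast this
  have hn1 : (1 : ℝ) < n := by
    have : 1 < n := by omega
    exact_mod_cast this
  have hlog : 0 < Real.log n := Real.log_pos hn1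
  obtain ⟨L, hL⟩ : ∃ L : ℝ, L = 4 * Real.log n := ⟨_, rfl⟩
  obtain ⟨L', hL'⟩ : ∃ L' : ℝ, L' = 2 * Real.log n := ⟨_, rfl⟩
  have hLpos : 0 < L := by rw [hL]; positivity
  have hLpos' : 0 ≤ L' := by rw [hL']; positivity
  have hexpL : Real.exp (-L) = 1 / (n : ℝ) ^ 4 := by
    rw [hL, Real.exp_neg, show 4 * Real.log (n : ℝ) = ((4 : ℕ) : ℝ) * Real.log n by norm_num,
      Real.exp_nat_mul, Real.exp_log hn0, one_div]
  have hexpL' : Real.exp (-L') = 1 / (n : ℝ) ^ 2 := by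
    rw [hL', Real.exp_neg, show 2 * Real.log (n : ℝ) = ((2 : ℕ) : ℝ) * Real.log n by norm_num,
      Real.exp_nat_mul, Real.exp_log hn0, one_div]
  -- the bad sets
  set B1 : Fin n → ℕ → Fin n → Finset (Equiv.Perm (Fin n)) := fun i p x =>
    univ.filter (fun π => ((top W p x).card : ℝ) / n * ((n - (i : ℕ) : ℕ) : ℝ)
      + 2 * Real.sqrt (((n - (i : ℕ) : ℕ) : ℝ) * L) ≤ ((rest π i ∩ top W p x).card : ℝ)) with hB1
  set B2 : ℕ → Finset (Equiv.Perm (Fin n)) := fun j =>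
    univ.filter (fun π => ∑ i : Fin n,
        ((n : ℝ) / ((n - (i : ℕ) : ℕ) : ℝ)) * ((code W j π i : ℝ) - (((n - (i : ℕ) : ℕ) : ℝ) + 1) / 2)
          ≤ - Real.sqrt (n ^ 3 * L' / 2)) with hB2
  set Bad : Finset (Equiv.Perm (Fin n)) :=
    ((univ : Finset (Fin n)).biUnion (fun i => (range m).biUnion (fun p =>
      (univ : Finset (Fin n)).biUnion (fun x => B1 i p x)))) ∪ (range m).biUnion B2 with hBad
  have hc1 : ∀ i p x, ((B1 i p x).card : ℝ) ≤ (n.factorial : ℝ) * (1 / (n : ℝ) ^ 4) := by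
    intro i p x
    rw [← hexpL]
    exact card_bad1 (by omega) i.2 (top W p x) hLpos
  have hc2 : ∀ j, ((B2 j).card : ℝ) ≤ (n.factorial : ℝ) * (1 / (n : ℝ) ^ 2) := by
    intro j
    rw [← hexpL']
    exact card_bad2 hW j hLpos'
  have hcard : (Bad.card : ℝ) < (n.factorial : ℝ) := by
    have h1 : (Bad.card : ℝ) ≤ (∑ i : Fin n, ∑ p ∈ range m, ∑ x : Fin n, ((B1 i p x).card : ℝ))
        + ∑ j ∈ range m, ((B2 j).card : ℝ) := by
      have h2 : Bad.card ≤ (∑ i : Fin n, ∑ p ∈ range m, ∑ x : Fin n, (B1 i p x).card)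
          + ∑ j ∈ range m, (B2 j).card := by
        refine (card_union_le _ _).trans (Nat.add_le_add ?_ card_biUnion_le)
        refine card_biUnion_le.trans (sum_le_sum fun i _ => ?_)
        refine card_biUnion_le.trans (sum_le_sum fun p _ => ?_)
        exact card_biUnion_le
      exact_mod_cast h2
    have h3 : (∑ i : Fin n, ∑ p ∈ range m, ∑ x : Fin n, ((B1 i p x).card : ℝ))
        ≤ n * (m * (n * ((n.factorial : ℝ) * (1 / (n : ℝ) ^ 4)))) := by
      calc _ ≤ ∑ i : Fin n, ∑ p ∈ range m, ∑ x : Fin n, ((n.factorial : ℝ) * (1 / (n : ℝ) ^ 4)) :=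
            sum_le_sum fun i _ => sum_le_sum fun p _ => sum_le_sum fun x _ => hc1 i p x
        _ = _ := by simp [sum_const, card_univ]
    have h4 : ∑ j ∈ range m, ((B2 j).card : ℝ) ≤ m * ((n.factorial : ℝ) * (1 / (n : ℝ) ^ 2)) := by
      calc _ ≤ ∑ j ∈ range m, ((n.factorial : ℝ) * (1 / (n : ℝ) ^ 2)) :=
            sum_le_sum fun j _ => hc2 j
        _ = _ := by simp [sum_const]
    have hf : (0 : ℝ) < n.factorial := by exact_mod_cast Nat.factorial_pos n
    have h5 : (n : ℝ) * (m * (n * ((n.factorial : ℝ) * (1 / (n : ℝ) ^ 4))))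
        + m * ((n.factorial : ℝ) * (1 / (n : ℝ) ^ 2)) = (n.factorial : ℝ) * (2 * m / (n : ℝ) ^ 2) := by
      field_simp
      ring
    have h6 : 2 * (m : ℝ) / (n : ℝ) ^ 2 < 1 := by
      rw [div_lt_one (by positivity)]
      linarith
    have h7 : (n.factorial : ℝ) * (2 * m / (n : ℝ) ^ 2) < n.factorial := by nlinarith
    linarith
  obtain ⟨π, hπ⟩ : ∃ π : Equiv.Perm (Fin n), π ∉ Bad := by
    by_contra hcon
    push Not at hcon
    have h1 : Bad = univ := eq_univ_of_forall hcon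
    rw [h1, card_univ, Fintype.card_perm, Fintype.card_fin] at hcard
    exact lt_irrefl _ hcard
  refine ⟨π, fun j hj => ?_⟩
  have hπ1 : ∀ (i : Fin n) (p : ℕ), p < m → ∀ x, ((rest π i ∩ top W p x).card : ℝ)
      < ((top W p x).card : ℝ) / n * ((n - (i : ℕ) : ℕ) : ℝ)
      + 2 * Real.sqrt (((n - (i : ℕ) : ℕ) : ℝ) * L) := by
    intro i p hp x
    by_contra hcon
    push Not at hcon
    apply hπ
    rw [hBad, mem_union]
    left
    rw [mem_biUnion]
    refine ⟨i, mem_univ _, ?_⟩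
    rw [mem_biUnion]
    refine ⟨p, mem_range.mpr hp, ?_⟩
    rw [mem_biUnion]
    exact ⟨x, mem_univ _, by rw [hB1]; exact mem_filter.mpr ⟨mem_univ _, hcon⟩⟩
  have hπ2 : - Real.sqrt (n ^ 3 * L' / 2) < ∑ i : Fin n,
        ((n : ℝ) / ((n - (i : ℕ) : ℕ) : ℝ)) * ((code W j π i : ℝ) - (((n - (i : ℕ) : ℕ) : ℝ) + 1) / 2) := by
    by_contra hcon
    push Not at hcon
    apply hπ
    rw [hBad, mem_union]
    right
    rw [mem_biUnion]
    exact ⟨j, mem_range.mpr hj, by rw [hB2]; exact mem_filter.mpr ⟨mem_univ _, hcon⟩⟩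
  -- each waiting time is large compared with the code
  have hstep : ∀ i : Fin n, ((n : ℝ) / ((n - (i : ℕ) : ℕ) : ℝ)) * (code W j π i : ℝ)
      - 2 * n * Real.sqrt L * (1 / Real.sqrt ((n - (i : ℕ) : ℕ) : ℝ))
      ≤ (wt W (ptr W (seq π) j i) (seq π i) : ℝ) := by
    intro i
    obtain ⟨r, hr⟩ : ∃ r : ℝ, r = ((n - (i : ℕ) : ℕ) : ℝ) := ⟨_, rfl⟩
    have hr1 : 1 ≤ r := by
      rw [hr]
      have : 1 ≤ n - (i : ℕ) := by have := i.2; omega
      exact_mod_cast this
    have hr0 : 0 < r := by linarith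
    have h1 := hπ1 i (ptr W (seq π) j i % m) (Nat.mod_lt _ hm) (π i)
    rw [top_periodic hper] at h1
    have h2 : ((top W (ptr W (seq π) j i) (π i)).card : ℝ) ≤ wt W (ptr W (seq π) j i) (seq π i) := by
      have h3 : seq π i = π i := seq_lt π i.2
      rw [h3]
      exact_mod_cast card_top_le hW _ _
    rw [← hr] at h1 ⊢
    have h4 : (code W j π i : ℝ) = ((rest π i ∩ top W (ptr W (seq π) j i) (π i)).card : ℝ) := rfl
    rw [← h4] at h1
    have h5 : Real.sqrt (r * L) = Real.sqrt r * Real.sqrt L := Real.sqrt_mul hr0.le _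
    rw [h5] at h1
    have hsr : 0 < Real.sqrt r := Real.sqrt_pos.mpr hr0
    have hsr2 : Real.sqrt r * Real.sqrt r = r := Real.mul_self_sqrt hr0.le
    set c : ℝ := (code W j π i : ℝ)
    set k : ℝ := ((top W (ptr W (seq π) j i) (π i)).card : ℝ)
    have h6 : n / r * c < k + 2 * n * Real.sqrt L * (1 / Real.sqrt r) := by
      have h7 : n / r * c < n / r * (k / n * r + 2 * (Real.sqrt r * Real.sqrt L)) :=
        mul_lt_mul_of_pos_left h1 (by positivity)
      have h8 : n / r * (k / n * r + 2 * (Real.sqrt r * Real.sqrt L))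
          = k + 2 * n * Real.sqrt L * (1 / Real.sqrt r) := by
        have e1 : n / r * (k / n * r) = k := by field_simp
        have e2 : n / r * (2 * (Real.sqrt r * Real.sqrt L)) = 2 * n * Real.sqrt L * (1 / Real.sqrt r) := by
          have e3 : Real.sqrt r / r = 1 / Real.sqrt r := Real.sqrt_div_self'
          calc n / r * (2 * (Real.sqrt r * Real.sqrt L)) = 2 * n * Real.sqrt L * (Real.sqrt r / r) := by ring
            _ = _ := by rw [e3]
        rw [mul_add, e1, e2]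
      linarith
    linarith
  -- sum up
  have hsum : (∑ i : Fin n, (((n : ℝ) / ((n - (i : ℕ) : ℕ) : ℝ)) * (code W j π i : ℝ)
      - 2 * n * Real.sqrt L * (1 / Real.sqrt ((n - (i : ℕ) : ℕ) : ℝ))))
      ≤ ((∑ l ∈ range n, wt W (ptr W (seq π) j l) (seq π l) : ℕ) : ℝ) := by
    rw [← Fin.sum_univ_eq_sum_range (fun l => wt W (ptr W (seq π) j l) (seq π l)) n]
    push_cast
    exact sum_le_sum fun i _ => hstep i
  have hA : ∑ i : Fin n, ((n : ℝ) / ((n - (i : ℕ) : ℕ) : ℝ)) * (code W j π i : ℝ)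
      = (∑ i : Fin n, ((n : ℝ) / ((n - (i : ℕ) : ℕ) : ℝ))
          * ((code W j π i : ℝ) - (((n - (i : ℕ) : ℕ) : ℝ) + 1) / 2))
        + ∑ i : Fin n, ((n : ℝ) / ((n - (i : ℕ) : ℕ) : ℝ)) * ((((n - (i : ℕ) : ℕ) : ℝ) + 1) / 2) := by
    rw [← sum_add_distrib]
    apply sum_congr rfl
    intro i _
    ring
  have hBsum : (n : ℝ) ^ 2 / 2
      ≤ ∑ i : Fin n, ((n : ℝ) / ((n - (i : ℕ) : ℕ) : ℝ)) * ((((n - (i : ℕ) : ℕ) : ℝ) + 1) / 2) := by
    have h1 : ∀ i : Fin n, (n : ℝ) / 2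
        ≤ ((n : ℝ) / ((n - (i : ℕ) : ℕ) : ℝ)) * ((((n - (i : ℕ) : ℕ) : ℝ) + 1) / 2) := by
      intro i
      have hr0 : (0 : ℝ) < ((n - (i : ℕ) : ℕ) : ℝ) := by
        have : 0 < n - (i : ℕ) := by have := i.2; omega
        exact_mod_cast this
      have : (n : ℝ) / ((n - (i : ℕ) : ℕ) : ℝ) * ((((n - (i : ℕ) : ℕ) : ℝ) + 1) / 2)
          = n / 2 + n / ((n - (i : ℕ) : ℕ) : ℝ) / 2 := by field_simp
      rw [this]
      have : 0 ≤ (n : ℝ) / ((n - (i : ℕ) : ℕ) : ℝ) / 2 := by positivity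
      linarith
    calc (n : ℝ) ^ 2 / 2 = ∑ i : Fin n, (n : ℝ) / 2 := by
          rw [sum_const, card_univ, Fintype.card_fin, nsmul_eq_mul]
          ring
      _ ≤ _ := sum_le_sum fun i _ => h1 i
  have hCsum : ∑ i : Fin n, 2 * n * Real.sqrt L * (1 / Real.sqrt ((n - (i : ℕ) : ℕ) : ℝ))
      ≤ 8 * Real.sqrt (n ^ 3 * Real.log n) := by
    rw [← mul_sum]
    have h1 : ∑ i : Fin n, 1 / Real.sqrt ((n - (i : ℕ) : ℕ) : ℝ)
        = ∑ i ∈ range n, 1 / Real.sqrt ((i : ℝ) + 1) := by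
      rw [Fin.sum_univ_eq_sum_range (fun i => 1 / Real.sqrt ((n - i : ℕ) : ℝ)) n]
      rw [← sum_range_reflect]
      apply sum_congr rfl
      intro i hi
      rw [mem_range] at hi
      have : n - (n - 1 - i) = i + 1 := by omega
      rw [this]
      push_cast
      rfl
    rw [h1]
    have h2 := sum_inv_sqrt_le n
    have h3 : Real.sqrt L = 2 * Real.sqrt (Real.log n) := by
      rw [hL, show (4 : ℝ) = 2 ^ 2 by norm_num, Real.sqrt_mul (by positivity),
        Real.sqrt_sq (by norm_num)]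
    have h4 : Real.sqrt (n ^ 3 * Real.log n) = n * Real.sqrt n * Real.sqrt (Real.log n) := by
      rw [Real.sqrt_mul (by positivity)]
      congr 1
      rw [show (n : ℝ) ^ 3 = n ^ 2 * n by ring, Real.sqrt_mul (by positivity),
        Real.sqrt_sq hn0.le]
    rw [h3, h4]
    have h5 : 0 ≤ Real.sqrt (Real.log n) := Real.sqrt_nonneg _
    calc 2 * (n : ℝ) * (2 * Real.sqrt (Real.log n)) * ∑ i ∈ range n, 1 / Real.sqrt ((i : ℝ) + 1)
        ≤ 2 * (n : ℝ) * (2 * Real.sqrt (Real.log n)) * (2 * Real.sqrt n) := by gcongr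
      _ = _ := by ring
  have hD : Real.sqrt (n ^ 3 * L' / 2) = Real.sqrt (n ^ 3 * Real.log n) := by
    congr 1
    rw [hL']
    ring
  rw [hD] at hπ2
  rw [sum_sub_distrib] at hsum
  linarith

/-- If every permutation occurs in some rotation of `w` then the length of `w` is at least
`n^2/2 - 9 sqrt(n^3 log n)`. -/
theorem lower_bound (hn : 2 ≤ n) (w : List (Fin n))
    (hc : ∀ π : Equiv.Perm (Fin n), ∃ j < w.length, (List.ofFn π).Sublist (w.rotate j)) :
    (n : ℝ) ^ 2 / 2 - 9 * Real.sqrt (n ^ 3 * Real.log n) ≤ w.length := by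
  haveI : NeZero n := ⟨by omega⟩
  by_contra hcon
  push Not at hcon
  obtain ⟨m, hm⟩ : ∃ m, m = w.length := ⟨_, rfl⟩
  have hm0 : 0 < m := by
    obtain ⟨j, hj, _⟩ := hc 1
    omega
  have hmn : (m : ℝ) < (n : ℝ) ^ 2 / 2 := by
    rw [hm]
    have := Real.sqrt_nonneg ((n : ℝ) ^ 3 * Real.log n)
    linarith
  set W : ℕ → Fin n := fun t => w[t % w.length]'(Nat.mod_lt _ (by omega)) with hWdef
  have hper : ∀ t, W (t % m) = W t := by
    intro t
    simp only [hWdef, hm, Nat.mod_mod]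
  have hW : ∀ t x, ∃ s, W (t + s) = x := by
    intro t x
    obtain ⟨j, hj, hsub⟩ := hc 1
    have hx : x ∈ w := by
      have h1 : x ∈ List.ofFn (1 : Equiv.Perm (Fin n)) := by
        rw [List.mem_ofFn]
        exact ⟨x, rfl⟩
      have h2 := hsub.subset h1
      simpa using h2
    obtain ⟨k, hk, hkx⟩ := List.getElem_of_mem hx
    refine ⟨k + m * (t + 1) - t, ?_⟩
    have h1 : t + (k + m * (t + 1) - t) = k + m * (t + 1) := by
      have : t + 1 ≤ m * (t + 1) := Nat.le_mul_of_pos_left _ hm0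
      omega
    have h2 : (t + (k + m * (t + 1) - t)) % w.length = k := by
      rw [h1, ← hm, Nat.add_mul_mod_self_left, Nat.mod_eq_of_lt (by omega)]
    simp only [hWdef, h2]
    exact hkx
  obtain ⟨π, hπ⟩ := exists_slow hn hW hper hm0 hmn
  obtain ⟨j, hj, hsub⟩ := hc π
  have h1 := hπ j (by omega)
  rw [List.sublist_iff_exists_fin_orderEmbedding_get_eq] at hsub
  obtain ⟨f, hf⟩ := hsub
  have hl1 : (List.ofFn π).length = n := by simp
  have hl2 : (w.rotate j).length = m := by simp [hm]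
  set F : ℕ → ℕ := fun i => if h : i < n then (f ⟨i, by rw [hl1]; exact h⟩ : ℕ) else 0 with hF
  have hF1 : ∀ i, i < n → W (j + F i) = seq π i := by
    intro i hi
    have h2 := hf ⟨i, by rw [hl1]; exact hi⟩
    simp only [List.get_eq_getElem, List.getElem_ofFn, List.getElem_rotate] at h2
    simp only [hWdef, hF, dif_pos hi]
    rw [seq_lt π hi, h2]
    congr 1
    rw [Nat.add_comm]
  have hF2 : ∀ i, i + 1 < n → F i < F (i + 1) := by
    intro i hi
    simp only [hF, dif_pos hi, dif_pos (show i < n by omega)]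
    have h3 : (⟨i, by rw [hl1]; omega⟩ : Fin (List.ofFn π).length)
        < ⟨i + 1, by rw [hl1]; exact hi⟩ := by
      rw [Fin.lt_def]
      exact Nat.lt_succ_self i
    exact f.strictMono h3
  have h4 := ptr_le hF1 hF2 (n - 1) (by omega)
  have h5 : F (n - 1) < m := by
    simp only [hF, dif_pos (show n - 1 < n by omega)]
    have := (f ⟨n - 1, by rw [hl1]; omega⟩).2
    omega
  rw [show n - 1 + 1 = n by omega, ptr_eq_sum] at h4
  have h6 : ∑ l ∈ range n, wt W (ptr W (seq π) j l) (seq π l) ≤ m := by omega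
  have h7 : ((∑ l ∈ range n, wt W (ptr W (seq π) j l) (seq π l) : ℕ) : ℝ) ≤ m := by
    exact_mod_cast h6
  rw [← hm] at hcon
  linarith

end Pool.Agent.Lib.MP_71d90a_co
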